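import Pool.Agent.W223.RA.Stms

set_option autoImplicit false

namespace Pool.Agent.W12.RA

open Pool.Agent.W223.RA

theorem sum_fac_le (S : Finset ℕ) (n : ℕ) :
    ∑ q ∈ S, (n.factorization q : ℝ) * Real.log q ≤ Real.log n := by
  rw [Real.log_nat_eq_sum_factorization, Finsupp.sum]
  have h1 : ∑ q ∈ S ∩ n.factorization.support, (n.factorization q : ℝ) * Real.log q =
      ∑ q ∈ S, (n.factorization q : ℝ) * Real.log q := by
    refine Finset.sum_subset Finset.inter_subset_left ?_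
    intro x hx hnx
    have h2 : x ∉ n.factorization.support := fun h => hnx (Finset.mem_inter.2 ⟨hx, h⟩)
    rw [Finsupp.notMem_support_iff] at h2
    rw [h2]
    simp
  rw [← h1]
  refine Finset.sum_le_sum_of_subset_of_nonneg Finset.inter_subset_right ?_
  intro q _ _
  exact mul_nonneg (Nat.cast_nonneg _) (Real.log_natCast_nonneg q)

theorem N3_pos {a b : ℕ} (h : Trip a b) : 0 < N3 a b := by
  unfold N3
  have h1 : 0 < b := h.1.trans_le h.2.1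
  have h2 := h.1
  positivity

theorem log_N3_le {a b : ℕ} (h : Trip a b) :
    Real.log (N3 a b : ℝ) ≤ 3 * Real.log ((a + b : ℕ) : ℝ) := by
  have h1 : N3 a b ≤ (a + b) ^ 3 := by
    unfold N3
    have h2 : a * b ≤ (a + b) * (a + b) := Nat.mul_le_mul (Nat.le_add_right _ _) (Nat.le_add_left _ _)
    calc a * b * (a + b) ≤ (a + b) * (a + b) * (a + b) := Nat.mul_le_mul_right _ h2
      _ = (a + b) ^ 3 := by ring
  have h3 : (N3 a b : ℝ) ≤ ((a + b : ℕ) : ℝ) ^ 3 := by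
    rw [← Nat.cast_pow]
    exact Nat.cast_le.2 h1
  have h4 : (0 : ℝ) < (N3 a b : ℝ) := Nat.cast_pos.2 (N3_pos h)
  calc Real.log (N3 a b : ℝ) ≤ Real.log (((a + b : ℕ) : ℝ) ^ 3) := Real.log_le_log h4 h3
    _ = 3 * Real.log ((a + b : ℕ) : ℝ) := by
        rw [Real.log_pow]
        norm_num

/-- the type of a prime -/
def ty (q a b : ℕ) : Fin 4 := if q ∣ a then 1 else if q ∣ b then 2 else if q ∣ a + b then 3 else 0

theorem ty_eq (q a b : ℕ) (hq : q.Prime) (h : Trip a b) :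
    (q ∣ a ↔ ty q a b = 1) ∧ (q ∣ b ↔ ty q a b = 2) ∧ (q ∣ a + b ↔ ty q a b = 3) := by
  have hab : ¬ (q ∣ a ∧ q ∣ b) := by
    rintro ⟨h1, h2⟩
    have h3 : q ∣ Nat.gcd a b := Nat.dvd_gcd h1 h2
    rw [h.2.2.gcd_eq_one] at h3
    exact hq.one_lt.ne' (Nat.dvd_one.1 h3)
  have h4 : q ∣ a → q ∣ a + b → q ∣ b := fun h1 h2 => (Nat.dvd_add_right h1).1 h2
  have h5 : q ∣ b → q ∣ a + b → q ∣ a := fun h1 h2 => (Nat.dvd_add_left h1).1 h2
  unfold ty
  by_cases ha : q ∣ a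
  · have hb : ¬ q ∣ b := fun hb => hab ⟨ha, hb⟩
    have hc : ¬ q ∣ a + b := fun hc => hb (h4 ha hc)
    simp [ha, hb, hc]
  · by_cases hb : q ∣ b
    · have hc : ¬ q ∣ a + b := fun hc => ha (h5 hb hc)
      simp [ha, hb, hc]
    · by_cases hc : q ∣ a + b
      · simp [ha, hb, hc]
      · simp [ha, hb, hc]

/-- the coordinates -/
noncomputable def nn (u : ℝ) (q a b : ℕ) : ℕ :=
  ⌊((N3 a b).factorization q : ℝ) * Real.log q / u⌋₊

theorem nn_sum (S : Finset ℕ) (ℓ : ℝ) (hl : 0 < ℓ) (a b : ℕ) (h : Trip a b) (hs : Scale ℓ a b) :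
    ∑ q : S, nn (ℓ / (32 * (S.card + 1))) q a b ≤ 99 * (S.card + 1) := by
  set u : ℝ := ℓ / (32 * (S.card + 1)) with hu
  have hu0 : 0 < u := by positivity
  have h1 : ((∑ q : S, nn u q a b : ℕ) : ℝ) ≤ ((99 * (S.card + 1) : ℕ) : ℝ) := by
    push_cast
    calc (∑ q : S, (nn u q a b : ℝ)) ≤
        ∑ q : S, ((N3 a b).factorization q : ℝ) * Real.log (q : ℕ) / u := by
          refine Finset.sum_le_sum fun q _ => ?_
          exact Nat.floor_le (div_nonneg (mul_nonneg (Nat.cast_nonneg _)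
            (Real.log_natCast_nonneg _)) hu0.le)
      _ = (∑ q ∈ S, ((N3 a b).factorization q : ℝ) * Real.log q) / u := by
          rw [← Finset.sum_div]
          congr 1
          exact Finset.sum_coe_sort S (fun q => ((N3 a b).factorization q : ℝ) * Real.log q)
      _ ≤ Real.log (N3 a b) / u := by
          exact div_le_div_of_nonneg_right (sum_fac_le S _) hu0.le
      _ ≤ (3 * (33 / 32 * ℓ)) / u := by
          refine div_le_div_of_nonneg_right ?_ hu0.le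
          have h2 := log_N3_le h
          have h3 := hs.2
          linarith
      _ = 99 * ((S.card : ℝ) + 1) := by
          rw [hu]
          field_simp
          ring
  exact_mod_cast h1

theorem floor_near {x y u l : ℝ} (hu : 0 < u) (hx : 0 ≤ x * l / u) (hy : 0 ≤ y * l / u)
    (h : ⌊x * l / u⌋₊ = ⌊y * l / u⌋₊) : |(x - y) * l| ≤ u := by
  have q1 := Nat.floor_le hx
  have q2 := Nat.floor_le hy
  have q3 := Nat.lt_floor_add_one (x * l / u)
  have q4 := Nat.lt_floor_add_one (y * l / u)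
  rw [h] at q1 q3
  have h5 : |x * l / u - y * l / u| ≤ 1 := by
    rw [abs_le]
    constructor <;> linarith
  rw [← sub_div, abs_div, abs_of_pos hu, div_le_one hu] at h5
  rw [sub_mul]
  exact h5

theorem pow_aux (n : ℕ) : 4 ^ n * 2 ^ (99 * (n + 1) + n) ≤ 2 ^ (105 * (n + 1)) := by
  have h1 : 4 ^ n = 2 ^ (2 * n) := by
    rw [pow_mul]
    norm_num
  rw [h1, ← pow_add]
  exact Nat.pow_le_pow_right Nat.zero_lt_two (by omega)

/-- the code -/
abbrev Cd (S : Finset ℕ) : Type :=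
  (S → Fin 4) × {f : S → Fin (99 * (S.card + 1) + 1) // ∑ q, (f q : ℕ) ≤ 99 * (S.card + 1)}

theorem card_Cd (hCNT : StmtCNT) (S : Finset ℕ) :
    Fintype.card (Cd S) ≤ 2 ^ (105 * (S.card + 1)) := by
  classical
  unfold Cd
  rw [Fintype.card_prod, Fintype.card_fun, Fintype.card_fin,
    Fintype.card_coe, Fintype.card_subtype]
  exact (Nat.mul_le_mul_left _ (hCNT S (99 * (S.card + 1)))).trans (pow_aux S.card)

theorem emb (α : Type) [Fintype α] (M : ℕ) (h : Fintype.card α ≤ M) : Nonempty (α ↪ Fin M) :=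
  Function.Embedding.nonempty_of_card_le (by rw [Fintype.card_fin]; exact h)

theorem exists_code (S : Finset ℕ) (ℓ : ℝ) (hl : 0 < ℓ) (a b : ℕ) (h : Trip a b)
    (hs : Scale ℓ a b) : ∃ c : Cd S, (∀ q : S, c.1 q = ty q a b) ∧
      ∀ q : S, ((c.2.1 q : Fin _) : ℕ) = nn (ℓ / (32 * (S.card + 1))) q a b := by
  have h1 := nn_sum S ℓ hl a b h hs
  have h2 : ∀ q : S, nn (ℓ / (32 * (S.card + 1))) q a b < 99 * (S.card + 1) + 1 := by
    intro q
    have h3 : nn (ℓ / (32 * (S.card + 1))) q a b ≤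
        ∑ q : S, nn (ℓ / (32 * (S.card + 1))) q a b :=
      Finset.single_le_sum (f := fun q : S => nn (ℓ / (32 * (S.card + 1))) q a b)
        (fun i _ => Nat.zero_le _) (Finset.mem_univ q)
    exact Nat.lt_succ_of_le (h3.trans h1)
  exact ⟨(fun q => ty q a b, ⟨fun q => ⟨nn (ℓ / (32 * (S.card + 1))) q a b, h2 q⟩, h1⟩),
    fun q => rfl, fun q => rfl⟩

theorem near_of (S : Finset ℕ) (ℓ : ℝ) (hS : ∀ q ∈ S, q.Prime) (hl : 0 < ℓ)
    (a₁ b₁ a₂ b₂ : ℕ) (hT₁ : Trip a₁ b₁) (hT₂ : Trip a₂ b₂)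
    (hty : ∀ q : S, ty q a₁ b₁ = ty q a₂ b₂)
    (hnn : ∀ q : S, nn (ℓ / (32 * (S.card + 1))) q a₁ b₁ = nn (ℓ / (32 * (S.card + 1))) q a₂ b₂) :
    Near S ℓ a₁ b₁ a₂ b₂ := by
  have hu0 : 0 < ℓ / (32 * ((S.card : ℝ) + 1)) := by positivity
  intro q hq
  have h1 : ty q a₁ b₁ = ty q a₂ b₂ := hty ⟨q, hq⟩
  obtain ⟨e1, e2, e3⟩ := ty_eq q a₁ b₁ (hS q hq) hT₁
  obtain ⟨f1, f2, f3⟩ := ty_eq q a₂ b₂ (hS q hq) hT₂
  refine ⟨by rw [e1, f1, h1], by rw [e2, f2, h1], by rw [e3, f3, h1], ?_⟩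
  refine floor_near hu0 ?_ ?_ (hnn ⟨q, hq⟩)
  · exact div_nonneg (mul_nonneg (Nat.cast_nonneg _) (Real.log_natCast_nonneg _)) hu0.le
  · exact div_nonneg (mul_nonneg (Nat.cast_nonneg _) (Real.log_natCast_nonneg _)) hu0.le

theorem tCEL (hCNT : StmtCNT) : StmtCEL := by
  classical
  intro S ℓ hS hl
  have hcard := card_Cd hCNT S
  have hpos : 0 < 2 ^ (105 * (S.card + 1)) := Nat.pow_pos Nat.zero_lt_two
  generalize 2 ^ (105 * (S.card + 1)) = M at hcard hpos ⊢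
  obtain ⟨g⟩ := emb (Cd S) M hcard
  refine ⟨fun x => if h : Trip x.1 x.2 ∧ Scale ℓ x.1 x.2 then
    g (exists_code S ℓ hl x.1 x.2 h.1 h.2).choose else ⟨0, hpos⟩, ?_⟩
  intro a₁ b₁ a₂ b₂ hT₁ hT₂ hs₁ hs₂ hF
  have hc₁ : Trip (a₁, b₁).1 (a₁, b₁).2 ∧ Scale ℓ (a₁, b₁).1 (a₁, b₁).2 := ⟨hT₁, hs₁⟩
  have hc₂ : Trip (a₂, b₂).1 (a₂, b₂).2 ∧ Scale ℓ (a₂, b₂).1 (a₂, b₂).2 := ⟨hT₂, hs₂⟩
  have hF1 := (dif_pos hc₁).symm.trans (Eq.trans hF (dif_pos hc₂))
  have hF2 := g.injective hF1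
  obtain ⟨i1, i2⟩ := (exists_code S ℓ hl a₁ b₁ hT₁ hs₁).choose_spec
  obtain ⟨j1, j2⟩ := (exists_code S ℓ hl a₂ b₂ hT₂ hs₂).choose_spec
  refine near_of S ℓ hS hl a₁ b₁ a₂ b₂ hT₁ hT₂ (fun q => ?_) (fun q => ?_)
  · rw [← i1 q, ← j1 q]
    exact congrArg (fun c : Cd S => c.1 q) hF2
  · rw [← i2 q, ← j2 q]
    exact congrArg (fun c : Cd S => ((c.2.1 q : Fin _) : ℕ)) hF2

end Pool.Agent.W12.RA
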