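import Pool.Agent.W12.RA.TR1

set_option autoImplicit false

namespace Pool.Agent.W12.RA

open Pool.Agent.W223.RA Finset

theorem three_prod (x y z X : ℝ) (hx : 1 ≤ x) (hy : 1 ≤ y) (hz : 1 ≤ z) (h : x * y * z ≤ X) :
    x * y ≤ X ^ ((2 : ℝ) / 3) ∨ x * z ≤ X ^ ((2 : ℝ) / 3) ∨ y * z ≤ X ^ ((2 : ℝ) / 3) := by
  by_contra hcon
  push Not at hcon
  obtain ⟨h1, h2, h3⟩ := hcon
  have hX : 0 ≤ X := by
    refine le_trans ?_ h
    positivity
  set T : ℝ := X ^ ((2 : ℝ) / 3) with hT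
  have hT0 : 0 ≤ T := Real.rpow_nonneg hX _
  have hT3 : T ^ 3 = X ^ 2 := by
    rw [hT, ← Real.rpow_natCast, ← Real.rpow_mul hX, ← Real.rpow_natCast]
    norm_num
  have h4 : T * T < (x * y) * (x * z) := mul_lt_mul'' h1 h2 hT0 hT0
  have h5 : T * T * T < (x * y) * (x * z) * (y * z) :=
    mul_lt_mul'' h4 h3 (mul_nonneg hT0 hT0) hT0
  have h6 : (x * y) * (x * z) * (y * z) = (x * y * z) ^ 2 := by ring
  have h7 : (x * y * z) ^ 2 ≤ X ^ 2 := by
    refine pow_le_pow_left₀ ?_ h 2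
    positivity
  have h8 : T * T * T = T ^ 3 := by ring
  rw [h8, hT3, h6] at h5
  exact absurd h5 (not_lt.2 h7)

theorem rad_sub (X B w : ℝ) (R a b : ℕ) (hR : (R : ℝ) ≤ X) (hw : (R.primeFactors.card : ℝ) ≤ w)
    (ht : Trip a b) (hr : ∏ p ∈ (N3 a b).primeFactors, p = R)
    (hB : Real.log ((a + b : ℕ) : ℝ) ≤ B) :
    R ∈ (UU ⌊X ^ ((2 : ℝ) / 3)⌋₊ ⌊w⌋₊ ⌊3 / 2 * B⌋₊).image f1 ∪
      (UU ⌊X ^ ((2 : ℝ) / 3)⌋₊ ⌊w⌋₊ ⌊3 / 2 * B⌋₊).image f2 := by
  have hr2 : rd (a * b * (a + b)) = R := hr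
  have ha : a ≠ 0 := ht.1.ne'
  have hb : b ≠ 0 := (ht.1.trans_le ht.2.1).ne'
  have hc : a + b ≠ 0 := by omega
  have hab : Nat.Coprime a b := ht.2.2
  have hac : Nat.Coprime a (a + b) := by
    rw [Nat.coprime_self_add_right]
    exact hab
  have hbc : Nat.Coprime b (a + b) := by
    rw [Nat.coprime_add_self_right]
    exact hab.symm
  have habc : Nat.Coprime (a * b) (a + b) := Nat.Coprime.mul_left hac hbc
  have hR3 : rd a * rd b * rd (a + b) = R := by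
    rw [← hr2, rd_mul habc, rd_mul hab]
  have hom : a.primeFactors.card + b.primeFactors.card + (a + b).primeFactors.card ≤ ⌊w⌋₊ := by
    refine Nat.le_floor ?_
    have h1 : a.primeFactors.card + b.primeFactors.card + (a + b).primeFactors.card =
        R.primeFactors.card := by
      rw [← hr2, rd_pf, om_mul habc, om_mul hab]
    rw [h1]
    exact hw
  have hla : Real.log a ≤ B := by
    refine le_trans (Real.log_le_log (Nat.cast_pos.2 (Nat.pos_of_ne_zero ha)) ?_) hB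
    exact Nat.cast_le.2 (Nat.le_add_right _ _)
  have hlb : Real.log b ≤ B := by
    refine le_trans (Real.log_le_log (Nat.cast_pos.2 (Nat.pos_of_ne_zero hb)) ?_) hB
    exact Nat.cast_le.2 (Nat.le_add_left _ _)
  have ka := fac_le a _ B ha hla le_rfl
  have kb := fac_le b _ B hb hlb le_rfl
  have kc := fac_le (a + b) _ B hc hB le_rfl
  have g1 : (1 : ℝ) ≤ (rd a : ℝ) := by exact_mod_cast rd_pos a
  have g2 : (1 : ℝ) ≤ (rd b : ℝ) := by exact_mod_cast rd_pos b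
  have g3 : (1 : ℝ) ≤ (rd (a + b) : ℝ) := by exact_mod_cast rd_pos (a + b)
  have g4 : (rd a : ℝ) * rd b * rd (a + b) ≤ X := by
    refine le_trans (le_of_eq ?_) hR
    rw [← hR3]
    push_cast
    rfl
  rw [Finset.mem_union, Finset.mem_image, Finset.mem_image]
  rcases three_prod _ _ _ X g1 g2 g3 g4 with h | h | h
  · left
    refine ⟨(a, b), mem_UU _ _ _ a b ha hb (Nat.le_floor ?_) (by omega) ka kb, hr2⟩
    push_cast
    exact h
  · right
    refine ⟨(a, a + b), mem_UU _ _ _ a (a + b) ha hc (Nat.le_floor ?_) (by omega) ka kc, ?_⟩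
    · push_cast at h ⊢
      exact h
    · show rd (a * (a + b - a) * (a + b)) = R
      rw [Nat.add_sub_cancel_left]
      exact hr2
  · right
    refine ⟨(b, a + b), mem_UU _ _ _ b (a + b) hb hc (Nat.le_floor ?_) (by omega) kb kc, ?_⟩
    · push_cast at h ⊢
      exact h
    · show rd (b * (a + b - b) * (a + b)) = R
      rw [Nat.add_sub_cancel, mul_comm b a]
      exact hr2

theorem card_bd (X B w : ℝ) :
    ((RadSet X (fun a b => Real.log ((a + b : ℕ) : ℝ) ≤ B ∧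
      (((∏ p ∈ (N3 a b).primeFactors, p : ℕ).primeFactors.card : ℕ) : ℝ) ≤ w)).ncard : ℝ) ≤
      2 * ((UU ⌊X ^ ((2 : ℝ) / 3)⌋₊ ⌊w⌋₊ ⌊3 / 2 * B⌋₊).card : ℝ) := by
  have h1 : RadSet X (fun a b => Real.log ((a + b : ℕ) : ℝ) ≤ B ∧
      (((∏ p ∈ (N3 a b).primeFactors, p : ℕ).primeFactors.card : ℕ) : ℝ) ≤ w) ⊆
      (((UU ⌊X ^ ((2 : ℝ) / 3)⌋₊ ⌊w⌋₊ ⌊3 / 2 * B⌋₊).image f1 ∪
      (UU ⌊X ^ ((2 : ℝ) / 3)⌋₊ ⌊w⌋₊ ⌊3 / 2 * B⌋₊).image f2 : Finset ℕ) : Set ℕ) := by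
    rintro R ⟨hR, -, a, b, ht, hr, hB, hw⟩
    rw [Finset.mem_coe]
    rw [hr] at hw
    exact rad_sub X B w R a b hR hw ht hr hB
  have h2 := Set.ncard_le_ncard h1 (Finset.finite_toSet _)
  rw [Set.ncard_coe_finset] at h2
  have h3 := h2.trans (Finset.card_union_le _ _)
  have h4 := h3.trans (Nat.add_le_add Finset.card_image_le Finset.card_image_le)
  calc _ ≤ _ := Nat.cast_le.2 h4
    _ = _ := by push_cast; ring

theorem num_bd (L s B w : ℝ) (hs : 1000 ≤ s) (hLs : Real.log L = s) (hL : 500000 ≤ L)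
    (hB : B = L ^ ((9 : ℝ) / 4)) (hw : w = L / (10 * s)) :
    2 * (((⌊(Real.exp L) ^ ((2 : ℝ) / 3)⌋₊ : ℕ) : ℝ) *
      (1 + Real.log ((⌊(Real.exp L) ^ ((2 : ℝ) / 3)⌋₊ : ℕ) : ℝ)) *
      ((⌊3 / 2 * B⌋₊ : ℕ) + 1 : ℝ) ^ ⌊w⌋₊) ≤ (Real.exp L) ^ ((181 : ℝ) / 200) := by
  have hL0 : 0 < L := by linarith
  have hX23 : (Real.exp L) ^ ((2 : ℝ) / 3) = Real.exp (2 / 3 * L) := by
    rw [← Real.exp_mul]
    ring_nf
  have hX181 : (Real.exp L) ^ ((181 : ℝ) / 200) = Real.exp (181 / 200 * L) := by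
    rw [← Real.exp_mul]
    ring_nf
  have hB0 : 0 < B := by
    rw [hB]
    exact Real.rpow_pos_of_pos hL0 _
  have hlB : Real.log B = 9 / 4 * s := by
    rw [hB, Real.log_rpow hL0, hLs]
  have hB2 : 2 ≤ B := by
    have h1 : Real.log 2 ≤ Real.log B := by
      rw [hlB]
      have := Real.log_two_lt_d9
      linarith
    exact (Real.log_le_log_iff (by norm_num) hB0).1 h1
  have hw0 : 0 ≤ w := by
    rw [hw]
    positivity
  rw [hX23, hX181]
  set M : ℕ := ⌊Real.exp (2 / 3 * L)⌋₊ with hM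
  have hM1 : (M : ℝ) ≤ Real.exp (2 / 3 * L) := Nat.floor_le (Real.exp_pos _).le
  have hM0 : 1 ≤ M := by
    refine Nat.le_floor ?_
    rw [Nat.cast_one]
    exact Real.one_le_exp (by positivity)
  have hM0' : (0 : ℝ) < M := by exact_mod_cast hM0
  have hlM : Real.log M ≤ L := by
    have h1 : Real.log M ≤ 2 / 3 * L := by
      rw [← Real.log_exp (2 / 3 * L)]
      exact Real.log_le_log hM0' hM1
    linarith
  have hlM0 : 0 ≤ Real.log M := Real.log_natCast_nonneg _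
  have hK : ((⌊3 / 2 * B⌋₊ : ℕ) + 1 : ℝ) ≤ 2 * B := by
    have h1 : ((⌊3 / 2 * B⌋₊ : ℕ) : ℝ) ≤ 3 / 2 * B := Nat.floor_le (by positivity)
    linarith
  have hKpos : (0 : ℝ) < ((⌊3 / 2 * B⌋₊ : ℕ) + 1 : ℝ) := by positivity
  have hpow : ((⌊3 / 2 * B⌋₊ : ℕ) + 1 : ℝ) ^ ⌊w⌋₊ ≤ Real.exp (9 / 40 * L + 1 / 10000 * L) := by
    calc ((⌊3 / 2 * B⌋₊ : ℕ) + 1 : ℝ) ^ ⌊w⌋₊ ≤ (2 * B) ^ ⌊w⌋₊ :=
          pow_le_pow_left₀ hKpos.le hK _
      _ = (2 * B) ^ ((⌊w⌋₊ : ℕ) : ℝ) := (Real.rpow_natCast _ _).symm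
      _ ≤ (2 * B) ^ w := Real.rpow_le_rpow_of_exponent_le (by linarith) (Nat.floor_le hw0)
      _ = Real.exp (Real.log (2 * B) * w) := Real.rpow_def_of_pos (by positivity) _
      _ ≤ Real.exp (9 / 40 * L + 1 / 10000 * L) := by
          refine Real.exp_le_exp.2 ?_
          rw [Real.log_mul (by norm_num) hB0.ne', hlB, hw]
          have hs0 : 0 < s := by linarith
          have h1 : (Real.log 2 + 9 / 4 * s) * (L / (10 * s)) =
              Real.log 2 * (L / (10 * s)) + 9 / 40 * L := by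
            field_simp
            ring
          rw [h1]
          have h2 : L / (10 * s) ≤ L / 10000 := by
            refine div_le_div_of_nonneg_left hL0.le (by norm_num) ?_
            linarith
          have h3 : Real.log 2 ≤ 1 := by
            have := Real.log_two_lt_d9
            linarith
          have h4 : Real.log 2 * (L / (10 * s)) ≤ 1 * (L / 10000) :=
            mul_le_mul h3 h2 (by positivity) (by norm_num)
          linarith
  have hexp : 2 * (1 + L) ≤ Real.exp (1 / 100 * L) := by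
    have h1 := Real.quadratic_le_exp_of_nonneg (x := 1 / 100 * L) (by positivity)
    have h2 : 500000 * L ≤ L * L := mul_le_mul_of_nonneg_right hL hL0.le
    have h3 : (1 / 100 * L) ^ 2 / 2 = 1 / 20000 * (L * L) := by ring
    rw [h3] at h1
    linarith
  calc 2 * ((M : ℝ) * (1 + Real.log M) * ((⌊3 / 2 * B⌋₊ : ℕ) + 1 : ℝ) ^ ⌊w⌋₊)
      ≤ 2 * (Real.exp (2 / 3 * L) * (1 + L) * Real.exp (9 / 40 * L + 1 / 10000 * L)) := by
        refine mul_le_mul_of_nonneg_left ?_ (by norm_num)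
        refine mul_le_mul ?_ hpow (by positivity) (by positivity)
        exact mul_le_mul hM1 (by linarith) (by positivity) (Real.exp_pos _).le
    _ = 2 * (1 + L) * (Real.exp (2 / 3 * L) * Real.exp (9 / 40 * L + 1 / 10000 * L)) := by ring
    _ ≤ Real.exp (1 / 100 * L) * (Real.exp (2 / 3 * L) *
          Real.exp (9 / 40 * L + 1 / 10000 * L)) :=
        mul_le_mul_of_nonneg_right hexp (by positivity)
    _ = Real.exp (1 / 100 * L + (2 / 3 * L + (9 / 40 * L + 1 / 10000 * L))) := by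
        rw [Real.exp_add (1 / 100 * L), Real.exp_add (2 / 3 * L)]
    _ ≤ Real.exp (181 / 200 * L) := Real.exp_le_exp.2 (by linarith)

theorem tTR : StmtTR := by
  have hE : Real.exp 1000 ≤ Real.exp (Real.exp 1000) := by
    have := Real.add_one_le_exp (Real.exp 1000)
    linarith
  have hE1 : (500000 : ℝ) ≤ Real.exp 1000 := by
    have h1 := Real.quadratic_le_exp_of_nonneg (x := 1000) (by norm_num)
    linarith
  refine ⟨Real.exp (Real.exp 1000), by linarith, ?_⟩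
  intro X hX
  have hXpos : 0 < X := (Real.exp_pos _).trans_le hX
  have hL : Real.exp 1000 ≤ Real.log X := (Real.le_log_iff_exp_le hXpos).2 hX
  have hLpos : 0 < Real.log X := (Real.exp_pos _).trans_le hL
  have hs : 1000 ≤ Real.log (Real.log X) := (Real.le_log_iff_exp_le hLpos).2 hL
  have h1 : RadSet X (fun a b => Real.log ((a + b : ℕ) : ℝ) ≤ Real.log X ^ ((9 : ℝ) / 4)) ⊆
      RadSet X (fun a b => Real.log ((a + b : ℕ) : ℝ) ≤ Real.log X ^ ((9 : ℝ) / 4) ∧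
      (((∏ p ∈ (N3 a b).primeFactors, p : ℕ).primeFactors.card : ℕ) : ℝ) ≤
        Real.log X / (10 * Real.log (Real.log X))) := by
    rintro R ⟨h1, h2, a, b, h3, h4, h5⟩
    refine ⟨h1, h2, a, b, h3, h4, h5, ?_⟩
    rw [h4]
    exact h2
  have hfin : (RadSet X (fun a b => Real.log ((a + b : ℕ) : ℝ) ≤ Real.log X ^ ((9 : ℝ) / 4) ∧
      (((∏ p ∈ (N3 a b).primeFactors, p : ℕ).primeFactors.card : ℕ) : ℝ) ≤
        Real.log X / (10 * Real.log (Real.log X)))).Finite := by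
    refine Set.Finite.subset (Set.finite_Iic ⌊X⌋₊) ?_
    rintro R ⟨h1, -⟩
    exact Nat.le_floor h1
  have h2 := Set.ncard_le_ncard h1 hfin
  have h3 := card_bd X (Real.log X ^ ((9 : ℝ) / 4)) (Real.log X / (10 * Real.log (Real.log X)))
  have h4 := num_bd (Real.log X) (Real.log (Real.log X)) _ _ hs rfl (hE1.trans hL) rfl rfl
  rw [Real.exp_log hXpos] at h4
  refine le_trans (Nat.cast_le.2 h2) (h3.trans (le_trans ?_ h4))
  refine mul_le_mul_of_nonneg_left ?_ (by norm_num)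
  have h5 := card_UU ⌊X ^ ((2 : ℝ) / 3)⌋₊ ⌊Real.log X / (10 * Real.log (Real.log X))⌋₊
    ⌊3 / 2 * Real.log X ^ ((9 : ℝ) / 4)⌋₊
  have h6 := card_DD ⌊X ^ ((2 : ℝ) / 3)⌋₊ ⌊Real.log X / (10 * Real.log (Real.log X))⌋₊
  refine le_trans (Nat.cast_le.2 h5) ?_
  push_cast
  refine mul_le_mul_of_nonneg_right h6 ?_
  positivity

end Pool.Agent.W12.RA
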