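import Pool.Agent.W223.RA.Stms

set_option autoImplicit false

namespace Pool.Agent.W12.RA

open Pool.Agent.W223.RA Finset

/-- the radical -/
def rd (n : ℕ) : ℕ := ∏ p ∈ n.primeFactors, p

theorem rd_pf (n : ℕ) : (rd n).primeFactors = n.primeFactors :=
  Nat.primeFactors_prod fun _ hp => Nat.prime_of_mem_primeFactors hp

theorem rd_pos (n : ℕ) : 0 < rd n :=
  Finset.prod_pos fun _ hp => (Nat.prime_of_mem_primeFactors hp).pos

theorem rd_mul {m n : ℕ} (h : Nat.Coprime m n) : rd (m * n) = rd m * rd n := by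
  unfold rd
  rw [h.primeFactors_mul, Finset.prod_union h.disjoint_primeFactors]

theorem om_mul {m n : ℕ} (h : Nat.Coprime m n) :
    (m * n).primeFactors.card = m.primeFactors.card + n.primeFactors.card := by
  rw [h.primeFactors_mul, Finset.card_union_of_disjoint h.disjoint_primeFactors]

/-- the numbers with given radical and bounded exponents -/
def EE (K r : ℕ) : Finset ℕ :=
  (Finset.univ : Finset (r.primeFactors → Fin (K + 1))).image
    (fun f => ∏ q : r.primeFactors, (q : ℕ) ^ (f q : ℕ))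

theorem card_EE (K r : ℕ) : (EE K r).card ≤ (K + 1) ^ r.primeFactors.card := by
  unfold EE
  refine Finset.card_image_le.trans ?_
  rw [Finset.card_univ, Fintype.card_fun, Fintype.card_fin, Fintype.card_coe]

theorem mem_EE (K r u : ℕ) (hu : u ≠ 0) (hr : r.primeFactors = u.primeFactors)
    (hK : ∀ q, u.factorization q ≤ K) : u ∈ EE K r := by
  unfold EE
  rw [Finset.mem_image]
  refine ⟨fun q => ⟨u.factorization q, Nat.lt_succ_of_le (hK q)⟩, Finset.mem_univ _, ?_⟩
  show ∏ q : r.primeFactors, (q : ℕ) ^ (u.factorization q) = u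
  rw [Finset.prod_coe_sort r.primeFactors (fun q => q ^ (u.factorization q)), hr]
  exact Nat.prod_factorization_pow_eq_self hu

/-- pairs of radicals -/
def DD (M W : ℕ) : Finset (ℕ × ℕ) :=
  ((Icc 1 M) ×ˢ (Icc 1 M)).filter
    (fun r => r.1 * r.2 ≤ M ∧ r.1.primeFactors.card + r.2.primeFactors.card ≤ W)

theorem card_DD (M W : ℕ) : ((DD M W).card : ℝ) ≤ M * (1 + Real.log M) := by
  have h1 : DD M W ⊆ (Icc 1 M).biUnion (fun a => (Icc 1 (M / a)).image (fun b => (a, b))) := by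
    intro x hx
    unfold DD at hx
    rw [Finset.mem_filter, Finset.mem_product, Finset.mem_Icc, Finset.mem_Icc] at hx
    obtain ⟨⟨h1, h2⟩, h3, -⟩ := hx
    rw [Finset.mem_biUnion]
    refine ⟨x.1, Finset.mem_Icc.2 h1, Finset.mem_image.2 ⟨x.2, Finset.mem_Icc.2 ⟨h2.1, ?_⟩, rfl⟩⟩
    rw [Nat.le_div_iff_mul_le h1.1, mul_comm]
    exact h3
  have h2 : (DD M W).card ≤ ∑ a ∈ Icc 1 M, M / a := by
    refine (Finset.card_le_card h1).trans (Finset.card_biUnion_le.trans ?_)
    refine Finset.sum_le_sum fun a _ => ?_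
    refine Finset.card_image_le.trans ?_
    rw [Nat.card_Icc, Nat.add_sub_cancel]
  calc ((DD M W).card : ℝ) ≤ ((∑ a ∈ Icc 1 M, M / a : ℕ) : ℝ) := Nat.cast_le.2 h2
    _ = ∑ a ∈ Icc 1 M, ((M / a : ℕ) : ℝ) := by push_cast; rfl
    _ ≤ ∑ a ∈ Icc 1 M, (M : ℝ) * ((a : ℝ))⁻¹ := by
        refine Finset.sum_le_sum fun a _ => ?_
        rw [← div_eq_mul_inv]
        exact Nat.cast_div_le
    _ = (M : ℝ) * ((harmonic M : ℚ) : ℝ) := by
        rw [← Finset.mul_sum, harmonic_eq_sum_Icc]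
        push_cast
        rfl
    _ ≤ M * (1 + Real.log M) :=
        mul_le_mul_of_nonneg_left (harmonic_le_one_add_log M) (Nat.cast_nonneg _)

/-- pairs -/
def UU (M W K : ℕ) : Finset (ℕ × ℕ) := (DD M W).biUnion (fun r => EE K r.1 ×ˢ EE K r.2)

theorem card_UU (M W K : ℕ) : (UU M W K).card ≤ (DD M W).card * (K + 1) ^ W := by
  unfold UU
  refine Finset.card_biUnion_le_card_mul _ _ _ ?_
  intro r hr
  unfold DD at hr
  rw [Finset.mem_filter] at hr
  rw [Finset.card_product]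
  calc (EE K r.1).card * (EE K r.2).card ≤
      (K + 1) ^ r.1.primeFactors.card * (K + 1) ^ r.2.primeFactors.card :=
        Nat.mul_le_mul (card_EE _ _) (card_EE _ _)
    _ = (K + 1) ^ (r.1.primeFactors.card + r.2.primeFactors.card) := by rw [pow_add]
    _ ≤ (K + 1) ^ W := Nat.pow_le_pow_right (Nat.succ_pos _) hr.2.2

theorem mem_UU (M W K u v : ℕ) (hu : u ≠ 0) (hv : v ≠ 0) (h1 : rd u * rd v ≤ M)
    (h2 : u.primeFactors.card + v.primeFactors.card ≤ W)
    (h3 : ∀ q, u.factorization q ≤ K) (h4 : ∀ q, v.factorization q ≤ K) :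
    (u, v) ∈ UU M W K := by
  unfold UU
  rw [Finset.mem_biUnion]
  refine ⟨(rd u, rd v), ?_, ?_⟩
  · unfold DD
    rw [Finset.mem_filter, Finset.mem_product, Finset.mem_Icc, Finset.mem_Icc]
    have p1 := rd_pos u
    have p2 := rd_pos v
    refine ⟨⟨⟨p1, ?_⟩, ⟨p2, ?_⟩⟩, h1, ?_⟩
    · exact (Nat.le_mul_of_pos_right _ p2).trans h1
    · exact (Nat.le_mul_of_pos_left _ p1).trans h1
    · rw [rd_pf, rd_pf]
      exact h2
  · rw [Finset.mem_product]
    exact ⟨mem_EE K _ u hu (rd_pf u) h3, mem_EE K _ v hv (rd_pf v) h4⟩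

/-- recovering the radical from two of the three terms -/
def f1 (x : ℕ × ℕ) : ℕ := rd (x.1 * x.2 * (x.1 + x.2))

/-- recovering the radical from two of the three terms -/
def f2 (x : ℕ × ℕ) : ℕ := rd (x.1 * (x.2 - x.1) * x.2)

theorem fac_le (u K : ℕ) (B : ℝ) (hu : u ≠ 0) (hB : Real.log u ≤ B) (hK : ⌊3 / 2 * B⌋₊ ≤ K)
    (q : ℕ) : u.factorization q ≤ K := by
  by_cases hq : q.Prime
  · refine le_trans (Nat.le_floor ?_) hK
    have h1 : 2 ^ u.factorization q ≤ u := by
      calc 2 ^ u.factorization q ≤ q ^ u.factorization q :=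
            Nat.pow_le_pow_left hq.two_le _
        _ ≤ u := Nat.le_of_dvd (Nat.pos_of_ne_zero hu) (Nat.ordProj_dvd u q)
    have h2 : ((u.factorization q : ℕ) : ℝ) * Real.log 2 ≤ Real.log u := by
      rw [← Real.log_pow]
      refine Real.log_le_log (by positivity) ?_
      exact_mod_cast h1
    have h3 := Real.log_two_gt_d9
    have h4 : (0 : ℝ) ≤ (u.factorization q : ℕ) := Nat.cast_nonneg _
    nlinarith
  · rw [Nat.factorization_eq_zero_of_not_prime u hq]
    exact Nat.zero_le _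

end Pool.Agent.W12.RA
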